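import Mathlib

set_option autoImplicit false

namespace Pool.Agent.Results.MP_44afb3_an.CohenAlgebra

open Filter Topology TopologicalSpace

universe u v

section Defs

variable {H : Type u} [NormedAddCommGroup H] [InnerProductSpace ℂ H]

/-- A Boolean algebra of closed subspaces: it contains `0` and `H`, is closed under intersection
and closed span, and with these operations it is distributive and complemented. -/
structure IsBooleanAlgebraOfSubspaces (F : Set (Submodule ℂ H)) : Prop where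
  isClosed : ∀ M ∈ F, IsClosed (M : Set H)
  bot_mem : (⊥ : Submodule ℂ H) ∈ F
  top_mem : (⊤ : Submodule ℂ H) ∈ F
  inf_mem : ∀ A ∈ F, ∀ B ∈ F, A ⊓ B ∈ F
  sup_mem : ∀ A ∈ F, ∀ B ∈ F, (A ⊔ B).topologicalClosure ∈ F
  distrib : ∀ A ∈ F, ∀ B ∈ F, ∀ C ∈ F,
    A ⊓ (B ⊔ C).topologicalClosure = ((A ⊓ B) ⊔ (A ⊓ C)).topologicalClosure
  compl : ∀ A ∈ F, ∃ B ∈ F, A ⊓ B = ⊥ ∧ (A ⊔ B).topologicalClosure = ⊤

/-- Completeness in the Boolean sense: every subfamily has a supremum in the family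
with respect to inclusion. -/
def IsCompleteFamily (F : Set (Submodule ℂ H)) : Prop :=
  ∀ S ⊆ F, ∃ M ∈ F, (∀ N ∈ S, N ≤ M) ∧ ∀ M' ∈ F, (∀ N ∈ S, N ≤ M') → M ≤ M'

/-- Reflexivity: every closed subspace invariant under all bounded operators that leave every
member of the family invariant belongs to the family. -/
def IsReflexiveFamily (F : Set (Submodule ℂ H)) : Prop :=
  ∀ M : Submodule ℂ H, IsClosed (M : Set H) →
    (∀ T : H →L[ℂ] H, (∀ N ∈ F, ∀ x ∈ N, T x ∈ N) → ∀ x ∈ M, T x ∈ M) → M ∈ F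

end Defs

/-- Lattice isomorphism of two families of subspaces: a bijection preserving intersection and
closed span. -/
def LatticeIsomorphic {H : Type u} [NormedAddCommGroup H] [InnerProductSpace ℂ H]
    {K : Type v} [NormedAddCommGroup K] [InnerProductSpace ℂ K]
    (F : Set (Submodule ℂ H)) (G : Set (Submodule ℂ K)) : Prop :=
  ∃ f : F ≃ G,
    (∀ A B C : F, (C : Submodule ℂ H) = (A : Submodule ℂ H) ⊓ B →
      (f C : Submodule ℂ K) = (f A : Submodule ℂ K) ⊓ f B) ∧
    (∀ A B C : F, (C : Submodule ℂ H) = ((A : Submodule ℂ H) ⊔ B).topologicalClosure →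
      (f C : Submodule ℂ K) = ((f A : Submodule ℂ K) ⊔ f B).topologicalClosure)

section Hilbert

variable {K : Type v} [NormedAddCommGroup K] [InnerProductSpace ℂ K] [CompleteSpace K]

lemma tendsto_antitone (M : ℕ → Submodule ℂ K) (hc : ∀ k, IsClosed (M k : Set K))
    (hM : Antitone M) (x : K) :
    Tendsto (fun k => (M k)ᗮ.starProjection x) atTop (𝓝 ((⨅ k, M k)ᗮ.starProjection x)) := by
  have h1 : (⨆ k, (M k)ᗮ).topologicalClosure = (⨅ k, M k)ᗮ := by
    rw [← Submodule.orthogonal_orthogonal_eq_closure, ← Submodule.iInf_orthogonal]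
    congr 1
    apply iInf_congr
    intro k
    rw [Submodule.orthogonal_orthogonal_eq_closure, (hc k).submodule_topologicalClosure_eq]
  have h2 := Submodule.starProjection_tendsto_closure_iSup (fun k => (M k)ᗮ)
    (fun i j hij => Submodule.orthogonal_le (hM hij)) x
  simp only [h1] at h2
  exact h2

lemma tendsto_monotone (M : ℕ → Submodule ℂ K) (hM : Monotone M)
    (hd : (⨆ k, M k).topologicalClosure = ⊤) (x : K) :
    Tendsto (fun k => (M k)ᗮ.starProjection x) atTop (𝓝 0) := by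
  rw [Metric.tendsto_atTop]
  intro ε hε
  have h1 : x ∈ (⨆ k, M k).topologicalClosure := by rw [hd]; trivial
  obtain ⟨y, hy, hxy⟩ := Metric.mem_closure_iff.1 h1 ε hε
  obtain ⟨k, hk⟩ := (Submodule.mem_iSup_of_directed M hM.directed_le).1 hy
  refine ⟨k, fun n hn => ?_⟩
  have h2 : (M n)ᗮ.starProjection y = 0 := by
    rw [Submodule.starProjection_apply_eq_zero_iff]
    exact Submodule.le_orthogonal_orthogonal _ (hM hn hk)
  rw [dist_zero_right]
  calc ‖(M n)ᗮ.starProjection x‖ = ‖(M n)ᗮ.starProjection (x - y)‖ := by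
        rw [map_sub, h2, sub_zero]
    _ ≤ ‖x - y‖ := Submodule.norm_starProjection_apply_le _ _
    _ < ε := by rw [← dist_eq_norm]; exact hxy

/-- A Boolean algebra which has a countable dense subset and no atoms cannot be represented by
subspaces in a way compatible with countable decreasing infima and increasing suprema. -/
lemma no_rep {B : Type} [BooleanAlgebra B] [Nontrivial B]
    (d : ℕ → B) (hd : ∀ n, d n ≠ ⊥) (hd2 : ∀ b : B, b ≠ ⊥ → ∃ n, d n ≤ b)
    (hat : ∀ b : B, b ≠ ⊥ → ∃ e : ℕ → B, Antitone e ∧ (∀ k, e k ≠ ⊥) ∧ (∀ k, e k ≤ b) ∧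
      ∀ c, (∀ k, c ≤ e k) → c = ⊥)
    (φ : B → Submodule ℂ K) (hcl : ∀ b, IsClosed (φ b : Set K)) (hmono : Monotone φ)
    (hbot : φ ⊥ = ⊥) (hne : (⊤ : Submodule ℂ K) ≠ ⊥)
    (hinf : ∀ (e : ℕ → B) (c : B), Antitone e → IsGLB (Set.range e) c → ⨅ k, φ (e k) = φ c)
    (hsup : ∀ (e : ℕ → B), Monotone e → IsLUB (Set.range e) ⊤ →
      (⨆ k, φ (e k)).topologicalClosure = ⊤) : False := by
  obtain ⟨x, -, hx⟩ := Submodule.exists_mem_ne_zero_of_ne_bot hne
  set g : B → ℝ := fun b => ‖(φ b)ᗮ.starProjection x‖ with hg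
  have hxpos : 0 < ‖x‖ := norm_pos_iff.2 hx
  have hg0 : ‖x‖ / 2 < g ⊥ := by
    have : g ⊥ = ‖x‖ := by
      rw [hg]
      simp only
      rw [Submodule.norm_starProjection_apply]
      rw [hbot, Submodule.bot_orthogonal_eq_top]
      trivial
    rw [this]; linarith
  have step : ∀ (n : ℕ) (c : {c : B // ‖x‖ / 2 < g c}),
      ∃ c' : {c : B // ‖x‖ / 2 < g c}, (c : B) ≤ c' ∧ ∃ a : B, a ≠ ⊥ ∧ a ≤ d n ∧ a ≤ c' := by
    rintro n ⟨c, hc⟩
    obtain ⟨e, he1, he2, he3, he4⟩ := hat (d n) (hd n)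
    have hanti : Antitone fun k => c ⊔ e k := fun i j hij => sup_le_sup_left (he1 hij) c
    have hglb : IsGLB (Set.range fun k => c ⊔ e k) c := by
      constructor
      · rintro _ ⟨k, rfl⟩
        exact le_sup_left
      · intro a ha
        have h1 : a \ c = ⊥ := by
          apply he4
          intro k
          rw [sdiff_le_iff]
          exact ha ⟨k, rfl⟩
        exact sdiff_eq_bot_iff.1 h1
    have h1 := tendsto_antitone (fun k => φ (c ⊔ e k)) (fun k => hcl _)
      (fun i j hij => hmono (hanti hij)) x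
    rw [hinf _ c hanti hglb] at h1
    have h2 : Tendsto (fun k => g (c ⊔ e k)) atTop (𝓝 (g c)) := h1.norm
    obtain ⟨k, hk⟩ := (h2.eventually (lt_mem_nhds hc)).exists
    exact ⟨⟨c ⊔ e k, hk⟩, le_sup_left, e k, he2 k, he3 k, le_sup_right⟩
  choose F hF1 hF2 using step
  let c : ℕ → {c : B // ‖x‖ / 2 < g c} := fun n => Nat.rec ⟨⊥, hg0⟩ (fun n c => F n c) n
  have hc1 : ∀ n, (c n).1 ≤ (c (n + 1)).1 := by
    intro n
    exact hF1 n (c n)
  have hcm : Monotone fun n => (c n).1 := monotone_nat_of_le_succ hc1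
  have hlub : IsLUB (Set.range fun n => (c n).1) ⊤ := by
    constructor
    · intro _ _
      exact le_top
    · intro u hu
      by_contra hcon
      have h1 : uᶜ ≠ ⊥ := by
        intro h
        apply hcon
        rw [compl_eq_bot] at h
        rw [h]
      obtain ⟨n, hn⟩ := hd2 _ h1
      obtain ⟨a, ha1, ha2, ha3⟩ := hF2 n (c n)
      apply ha1
      have h2 : a ≤ u := ha3.trans (hu ⟨n + 1, rfl⟩)
      have h3 : a ≤ uᶜ := ha2.trans hn
      exact le_bot_iff.1 ((le_inf h2 h3).trans (inf_compl_eq_bot (a := u)).le)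
  have h1 := tendsto_monotone (fun n => φ (c n).1) (fun i j hij => hmono (hcm hij))
    (hsup _ hcm hlub) x
  have h2 : Tendsto (fun n => g (c n).1) atTop (𝓝 0) := by
    have := h1.norm
    rw [norm_zero] at this
    exact this
  have h3 : ‖x‖ / 2 ≤ 0 := ge_of_tendsto' h2 fun n => (c n).2.le
  linarith

end Hilbert

section Rep

lemma exists_prime {B : Type} [BooleanAlgebra B] (b : B) (hb : b ≠ ⊥) :
    ∃ J : Order.Ideal B, J.IsPrime ∧ b ∉ J := by
  have hdis : Disjoint ((Order.PFilter.principal b : Order.PFilter B) : Set B)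
      ((⊥ : Order.Ideal B) : Set B) := by
    rw [Set.disjoint_left]
    intro a ha1 ha2
    have h1 : b ≤ a := ha1
    have h2 : a = ⊥ := le_bot_iff.1 (Order.Ideal.mem_principal.1 ha2)
    rw [h2] at h1
    exact hb (le_bot_iff.1 h1)
  obtain ⟨J, hJ, -, hJ2⟩ := DistribLattice.prime_ideal_of_disjoint_filter_ideal hdis
  refine ⟨J, hJ, fun h => ?_⟩
  exact Set.disjoint_left.1 hJ2 (le_refl b) h

/-- A representation by subsets of `ℕ` of a Boolean algebra with a countable dense subset. -/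
lemma exists_rep {B : Type} [BooleanAlgebra B]
    (d : ℕ → B) (hd : ∀ n, d n ≠ ⊥) (hd2 : ∀ b : B, b ≠ ⊥ → ∃ n, d n ≤ b) :
    ∃ R : B → Set ℕ, R ⊥ = ∅ ∧ R ⊤ = Set.univ ∧
    (∀ a b, R (a ⊓ b) = R a ∩ R b) ∧ (∀ a b, R (a ⊔ b) = R a ∪ R b) ∧
    (∀ a b, R a ⊆ R b → a ≤ b) := by
  choose J hJ hJd using fun n => exists_prime (d n) (hd n)
  have hinf : ∀ n a b, a ⊓ b ∈ J n ↔ a ∈ J n ∨ b ∈ J n := by
    intro n a b
    constructor
    · exact (hJ n).mem_or_mem
    · rintro (h | h)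
      · exact (J n).lower inf_le_left h
      · exact (J n).lower inf_le_right h
  have hsup : ∀ n a b, a ⊔ b ∈ J n ↔ a ∈ J n ∧ b ∈ J n := fun n a b => Order.Ideal.sup_mem_iff
  have htop : ∀ n, (⊤ : B) ∉ J n := fun n => (hJ n).toIsProper.top_notMem
  have hbot : ∀ n, (⊥ : B) ∈ J n := fun n => Order.Ideal.bot_mem _
  refine ⟨fun b => {n | b ∉ J n}, ?_, ?_, ?_, ?_, ?_⟩
  · ext n
    simp
  · ext n
    simp [htop n]
  · intro a b
    ext n
    simp [hinf n a b]
  · intro a b
    ext n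
    simp only [Set.mem_ofPred_eq, hsup n a b, Set.mem_union]
    tauto
  · intro a b hab
    by_contra hcon
    have h1 : a ⊓ bᶜ ≠ ⊥ := by
      intro h
      apply hcon
      rwa [← sdiff_eq, sdiff_eq_bot_iff] at h
    obtain ⟨n, hn⟩ := hd2 _ h1
    have h2 : a ⊓ bᶜ ∉ J n := fun h => hJd n ((J n).lower hn h)
    rw [hinf] at h2
    push Not at h2
    have h3 : b ∉ J n := hab h2.1
    rcases (hJ n).mem_or_compl_mem (x := b) with h | h
    · exact h3 h
    · exact h2.2 h

end Rep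

section Cohen

/-- The regular open algebra of the real line. -/
abbrev RO : Type := Heyting.Regular (Opens ℝ)

lemma RO_le_iff (U : Opens ℝ) (b : RO) : Heyting.Regular.toRegular U ≤ b ↔ U ≤ (b : Opens ℝ) :=
  Heyting.Regular.gi.gc U b

lemma RO_ne_bot (b : RO) : b ≠ ⊥ ↔ ∃ x : ℝ, x ∈ (b : Opens ℝ) := by
  constructor
  · intro h
    by_contra hcon
    push Not at hcon
    apply h
    apply Heyting.Regular.coe_injective
    ext x
    constructor
    · intro hx
      exact absurd hx (hcon x)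
    · intro hx
      exact absurd hx (by simp)
  · rintro ⟨x, hx⟩ rfl
    simp at hx

lemma mem_toRegular {U : Opens ℝ} {x : ℝ} (hx : x ∈ U) :
    x ∈ (Heyting.Regular.toRegular U : Opens ℝ) := by
  rw [Heyting.Regular.coe_toRegular]
  exact (le_compl_compl : U ≤ Uᶜᶜ) hx

lemma exists_dense : ∃ d : ℕ → RO, (∀ n, d n ≠ ⊥) ∧ ∀ b : RO, b ≠ ⊥ → ∃ n, d n ≤ b := by
  obtain ⟨B, hBc, hBe, hB⟩ := exists_countable_basis ℝ
  have hBne : B.Nonempty := by
    obtain ⟨v, hv, -⟩ := hB.exists_subset_of_mem_open (Set.mem_univ (0 : ℝ)) isOpen_univ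
    exact ⟨v, hv⟩
  obtain ⟨f, hf⟩ := hBc.exists_eq_range hBne
  have hfo : ∀ n, IsOpen (f n) := fun n => hB.isOpen (by rw [hf]; exact ⟨n, rfl⟩)
  refine ⟨fun n => Heyting.Regular.toRegular ⟨f n, hfo n⟩, fun n => ?_, fun b hb => ?_⟩
  · have h1 : (f n).Nonempty := by
      rw [Set.nonempty_iff_ne_empty]
      intro h
      apply hBe
      rw [← h, hf]
      exact ⟨n, rfl⟩
    obtain ⟨x, hx⟩ := h1
    rw [RO_ne_bot]
    exact ⟨x, mem_toRegular (U := ⟨f n, hfo n⟩) hx⟩
  · obtain ⟨x, hx⟩ := (RO_ne_bot b).1 hb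
    obtain ⟨v, hv, hxv, hvb⟩ := hB.exists_subset_of_mem_open hx (b : Opens ℝ).2
    rw [hf] at hv
    obtain ⟨n, rfl⟩ := hv
    exact ⟨n, (RO_le_iff _ _).2 hvb⟩

lemma atomless (b : RO) (hb : b ≠ ⊥) : ∃ e : ℕ → RO, Antitone e ∧ (∀ k, e k ≠ ⊥) ∧
    (∀ k, e k ≤ b) ∧ ∀ c, (∀ k, c ≤ e k) → c = ⊥ := by
  obtain ⟨x, hx⟩ := (RO_ne_bot b).1 hb
  let U : ℕ → Opens ℝ := fun k => ⟨Metric.ball x (1 / ((k : ℝ) + 1)), Metric.isOpen_ball⟩
  have hU : Antitone U := by
    intro i j hij
    apply Metric.ball_subset_ball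
    apply one_div_le_one_div_of_le (by positivity)
    have : (i : ℝ) ≤ j := by exact_mod_cast hij
    linarith
  have hxU : ∀ k, x ∈ U k := fun k => Metric.mem_ball_self (by positivity)
  refine ⟨fun k => Heyting.Regular.toRegular (U k ⊓ b), ?_, ?_, ?_, ?_⟩
  · intro i j hij
    exact Heyting.Regular.toRegular.monotone (inf_le_inf_right _ (hU hij))
  · intro k
    rw [RO_ne_bot]
    exact ⟨x, mem_toRegular ⟨hxU k, hx⟩⟩
  · intro k
    rw [RO_le_iff]
    exact inf_le_right
  · intro c hc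
    by_contra hcon
    obtain ⟨z, hz⟩ := (RO_ne_bot c).1 hcon
    obtain ⟨y, hy, hyx⟩ := (dense_compl_singleton x).inter_open_nonempty (c : Opens ℝ)
      (c : Opens ℝ).2 ⟨z, hz⟩
    have hyx' : y ≠ x := hyx
    have hr : 0 < dist y x / 2 := by
      have := dist_pos.2 hyx'
      linarith
    obtain ⟨k, hk⟩ := exists_nat_one_div_lt hr
    let V : Opens ℝ := ⟨Metric.ball y (dist y x / 2), Metric.isOpen_ball⟩
    have hVU : Disjoint V (U k ⊓ b) := by
      apply Disjoint.mono_right (inf_le_left : U k ⊓ b ≤ U k)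
      rw [disjoint_iff_inf_le]
      rintro w ⟨hw1, hw2⟩
      exfalso
      have h1 : dist w y < dist y x / 2 := hw1
      have h2 : dist w x < 1 / ((k : ℝ) + 1) := hw2
      have h3 := dist_triangle_left y x w
      linarith
    have h1 : V ≤ (U k ⊓ (b : Opens ℝ))ᶜ := le_compl_iff_disjoint_right.2 hVU
    have h2 : (c : Opens ℝ) ≤ (U k ⊓ (b : Opens ℝ))ᶜᶜ := hc k
    have h3 : y ∈ (U k ⊓ (b : Opens ℝ))ᶜ ⊓ (U k ⊓ (b : Opens ℝ))ᶜᶜ :=
      ⟨h1 (Metric.mem_ball_self hr), h2 hy⟩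
    rw [inf_compl_self] at h3
    exact h3

lemma exists_lub (s : Set RO) : ∃ c : RO, IsLUB s c := by
  refine ⟨Heyting.Regular.toRegular (sSup ((fun b : RO => (b : Opens ℝ)) '' s)), ?_, ?_⟩
  · intro b hb
    have h1 : (b : Opens ℝ) ≤ sSup ((fun b : RO => (b : Opens ℝ)) '' s) := le_sSup ⟨b, hb, rfl⟩
    have h2 := Heyting.Regular.toRegular.monotone h1
    rwa [Heyting.Regular.toRegular_coe] at h2
  · intro c hc
    rw [RO_le_iff]
    apply sSup_le
    rintro _ ⟨b, hb, rfl⟩
    exact hc hb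

instance : Nontrivial RO := by
  refine ⟨⊤, ⊥, ?_⟩
  rw [RO_ne_bot]
  exact ⟨0, trivial⟩

end Cohen

section Coord

/-- The Hilbert space of square summable sequences. -/
abbrev E : Type := lp (fun _ : ℕ => ℂ) 2

lemma two_pos' : 0 < (2 : ENNReal).toReal := by norm_num

/-- Coordinate subspaces. -/
noncomputable def V (A : Set ℕ) : Submodule ℂ E where
  carrier := {x | ∀ n, n ∉ A → x n = 0}
  add_mem' := by
    intro x y hx hy n hn
    change x n + y n = 0
    rw [hx n hn, hy n hn, add_zero]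
  zero_mem' := by
    intro n _
    rfl
  smul_mem' := by
    intro c x hx n hn
    change c * x n = 0
    rw [hx n hn, mul_zero]

lemma mem_V (A : Set ℕ) (x : E) : x ∈ V A ↔ ∀ n, n ∉ A → x n = 0 := Iff.rfl

lemma V_closed (A : Set ℕ) : IsClosed (V A : Set E) := by
  have : (V A : Set E) = ⋂ n, ⋂ (_ : n ∉ A), {x : E | lp.evalCLM ℂ (fun _ : ℕ => ℂ) 2 n x = 0} := by
    ext x
    simp only [SetLike.mem_coe, mem_V, Set.mem_iInter, Set.mem_ofPred_eq]
    rfl
  rw [this]
  apply isClosed_iInter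
  intro n
  apply isClosed_iInter
  intro _
  exact isClosed_eq (ContinuousLinearMap.continuous _) continuous_const

lemma V_inf (A B : Set ℕ) : V A ⊓ V B = V (A ∩ B) := by
  ext x
  rw [Submodule.mem_inf, mem_V, mem_V, mem_V]
  constructor
  · rintro ⟨h1, h2⟩ n hn
    by_cases hA : n ∈ A
    · exact h2 n fun hB => hn ⟨hA, hB⟩
    · exact h1 n hA
  · intro h
    exact ⟨fun n hn => h n fun h' => hn h'.1, fun n hn => h n fun h' => hn h'.2⟩

open Classical in
lemma V_sup (A B : Set ℕ) : (V A ⊔ V B).topologicalClosure = V (A ∪ B) := by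
  have h : V A ⊔ V B = V (A ∪ B) := by
    apply le_antisymm
    · apply sup_le
      · intro x hx n hn
        exact hx n fun h => hn (Or.inl h)
      · intro x hx n hn
        exact hx n fun h => hn (Or.inr h)
    · intro x hx
      have hm : ∀ P : ℕ → Prop, Memℓp (fun n => if P n then x n else (0 : ℂ)) 2 := by
        intro P
        apply memℓp_gen
        apply Summable.of_nonneg_of_le (fun n => by positivity) _
          ((lp.memℓp x).summable two_pos')
        intro n
        split_ifs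
        · exact le_rfl
        · rw [norm_zero, Real.zero_rpow two_pos'.ne']
          positivity
      let y : E := ⟨fun n => if n ∈ A then x n else (0 : ℂ), hm fun n => n ∈ A⟩
      have hmz : Memℓp (fun n => if n ∉ A then x n else (0 : ℂ)) 2 := by
        convert hm fun n => n ∉ A
      let z : E := ⟨fun n => if n ∉ A then x n else (0 : ℂ), hmz⟩
      have hy : y ∈ V A := by
        intro n hn
        exact if_neg hn
      have hz : z ∈ V B := by
        intro n hn
        by_cases h : n ∈ A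
        · exact if_neg (not_not.2 h)
        · exact (if_pos h).trans (hx n fun h' => h'.elim h hn)
      have hxyz : x = y + z := by
        ext n
        have h1 : y n = if n ∈ A then x n else (0 : ℂ) := rfl
        have h2 : z n = if n ∉ A then x n else (0 : ℂ) := rfl
        rw [lp.coeFn_add, Pi.add_apply, h1, h2]
        by_cases h : n ∈ A <;> simp [h]
      rw [hxyz]
      exact Submodule.add_mem_sup hy hz
  rw [h]
  exact (V_closed _).submodule_topologicalClosure_eq

lemma V_le_iff (A B : Set ℕ) : V A ≤ V B ↔ A ⊆ B := by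
  constructor
  · intro h n hn
    by_contra hcon
    have h1 : (lp.single 2 n (1 : ℂ) : E) ∈ V A := by
      intro m hm
      rw [lp.single_apply_ne]
      rintro rfl
      exact hm hn
    have h2 := h h1 n hcon
    rw [lp.single_apply_self] at h2
    exact one_ne_zero h2
  · intro h x hx n hn
    exact hx n fun h' => hn (h h')

lemma V_empty : V ∅ = ⊥ := by
  rw [eq_bot_iff]
  intro x hx
  rw [Submodule.mem_bot]
  ext n
  exact hx n (Set.notMem_empty n)

lemma V_univ : V Set.univ = ⊤ := by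
  rw [eq_top_iff]
  intro x _ n hn
  exact absurd (Set.mem_univ n) hn

end Coord

section Reflexive

variable {K : Type v} [NormedAddCommGroup K] [InnerProductSpace ℂ K]

lemma reflexive_iInf {G : Set (Submodule ℂ K)} (hG : IsReflexiveFamily G)
    (hcl : ∀ M ∈ G, IsClosed (M : Set K)) (M : ℕ → Submodule ℂ K) (hM : ∀ k, M k ∈ G) :
    ⨅ k, M k ∈ G := by
  apply hG
  · rw [Submodule.coe_iInf]
    exact isClosed_iInter fun k => hcl _ (hM k)
  · intro T hT x hx
    rw [Submodule.mem_iInf] at hx ⊢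
    exact fun k => hT _ (hM k) x (hx k)

lemma reflexive_iSup {G : Set (Submodule ℂ K)} (hG : IsReflexiveFamily G)
    (M : ℕ → Submodule ℂ K) (hM : ∀ k, M k ∈ G) :
    (⨆ k, M k).topologicalClosure ∈ G := by
  apply hG
  · exact Submodule.isClosed_topologicalClosure _
  · intro T hT x hx
    have h1 : (⨆ k, M k) ≤ (⨆ k, M k).topologicalClosure.comap (T : K →ₗ[ℂ] K) := by
      apply iSup_le
      intro k y hy
      exact Submodule.le_topologicalClosure _ (Submodule.mem_iSup_of_mem k (hT _ (hM k) y hy))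
    have h2 : (⨆ k, M k).topologicalClosure ≤
        (⨆ k, M k).topologicalClosure.comap (T : K →ₗ[ℂ] K) := by
      apply Submodule.topologicalClosure_minimal _ h1
      exact (Submodule.isClosed_topologicalClosure _).preimage T.continuous
    exact h2 hx

end Reflexive

/-- The general construction from an atomless complete Boolean algebra with a countable dense
subset. -/
theorem main_gen {B : Type} [BooleanAlgebra B] [Nontrivial B]
    (hlub : ∀ s : Set B, ∃ c : B, IsLUB s c)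
    (d : ℕ → B) (hd1 : ∀ n, d n ≠ ⊥) (hd2 : ∀ b : B, b ≠ ⊥ → ∃ n, d n ≤ b)
    (hat : ∀ b : B, b ≠ ⊥ → ∃ e : ℕ → B, Antitone e ∧ (∀ k, e k ≠ ⊥) ∧ (∀ k, e k ≤ b) ∧
      ∀ c, (∀ k, c ≤ e k) → c = ⊥) :
    ∃ F : Set (Submodule ℂ (lp (fun _ : ℕ => ℂ) 2)),
      IsBooleanAlgebraOfSubspaces F ∧ IsCompleteFamily F ∧
      ∀ (K : Type v) [NormedAddCommGroup K] [InnerProductSpace ℂ K] [CompleteSpace K]
        (G : Set (Submodule ℂ K)),
        IsBooleanAlgebraOfSubspaces G → IsReflexiveFamily G → ¬ LatticeIsomorphic F G := by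
  obtain ⟨R, hRbot, hRtop, hRinf, hRsup, hRle⟩ := exists_rep d hd1 hd2
  have hRmono : ∀ a b, a ≤ b → R a ⊆ R b := by
    intro a b hab
    have : R a = R a ∩ R b := by rw [← hRinf, inf_eq_left.2 hab]
    rw [this]
    exact Set.inter_subset_right
  let W : B → Submodule ℂ E := fun b => V (R b)
  have hWle : ∀ a b, W a ≤ W b ↔ a ≤ b := fun a b =>
    ⟨fun h => hRle _ _ ((V_le_iff _ _).1 h), fun h => (V_le_iff _ _).2 (hRmono _ _ h)⟩
  have hWinf : ∀ a b, W a ⊓ W b = W (a ⊓ b) := by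
    intro a b
    change V (R a) ⊓ V (R b) = V (R (a ⊓ b))
    rw [V_inf, hRinf]
  have hWsup : ∀ a b, (W a ⊔ W b).topologicalClosure = W (a ⊔ b) := by
    intro a b
    change (V (R a) ⊔ V (R b)).topologicalClosure = V (R (a ⊔ b))
    rw [V_sup, hRsup]
  have hWbot : W ⊥ = ⊥ := by
    change V (R ⊥) = ⊥
    rw [hRbot, V_empty]
  have hWtop : W ⊤ = ⊤ := by
    change V (R ⊤) = ⊤
    rw [hRtop, V_univ]
  let F : Set (Submodule ℂ E) := {M | ∃ b, M = W b}
  refine ⟨F, ?_, ?_, ?_⟩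
  · constructor
    · rintro _ ⟨b, rfl⟩
      exact V_closed _
    · exact ⟨⊥, hWbot.symm⟩
    · exact ⟨⊤, hWtop.symm⟩
    · rintro _ ⟨a, rfl⟩ _ ⟨b, rfl⟩
      exact ⟨a ⊓ b, hWinf a b⟩
    · rintro _ ⟨a, rfl⟩ _ ⟨b, rfl⟩
      exact ⟨a ⊔ b, hWsup a b⟩
    · rintro _ ⟨a, rfl⟩ _ ⟨b, rfl⟩ _ ⟨c, rfl⟩
      rw [hWsup, hWinf, hWinf, hWinf, hWsup, inf_sup_left]
    · rintro _ ⟨a, rfl⟩
      refine ⟨W aᶜ, ⟨aᶜ, rfl⟩, ?_, ?_⟩
      · rw [hWinf, inf_compl_eq_bot, hWbot]
      · rw [hWsup, sup_compl_eq_top, hWtop]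
  · intro S hS
    obtain ⟨c, hc1, hc2⟩ := hlub {b | W b ∈ S}
    refine ⟨W c, ⟨c, rfl⟩, ?_, ?_⟩
    · intro M hM
      obtain ⟨b, rfl⟩ := hS hM
      exact (hWle _ _).2 (hc1 hM)
    · rintro _ ⟨b, rfl⟩ hb
      exact (hWle _ _).2 (hc2 fun a ha => (hWle _ _).1 (hb _ ha))
  · intro K _ _ _ G hG hGr hiso
    obtain ⟨f, hf1, hf2⟩ := hiso
    have hfle : ∀ A B : F, (f A : Submodule ℂ K) ≤ f B ↔ (A : Submodule ℂ E) ≤ B := by
      intro A B
      have hmem : (A : Submodule ℂ E) ⊓ B ∈ F := by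
        obtain ⟨a, ha⟩ := A.2
        obtain ⟨b, hb⟩ := B.2
        rw [ha, hb]
        exact ⟨a ⊓ b, hWinf a b⟩
      have h1 := hf1 A B ⟨_, hmem⟩ rfl
      constructor
      · intro h
        rw [inf_eq_left.2 h] at h1
        have h2 := f.injective (Subtype.ext h1)
        have h3 : (A : Submodule ℂ E) ⊓ B = A := congrArg Subtype.val h2
        exact inf_eq_left.1 h3
      · intro h
        have h2 : (⟨_, hmem⟩ : F) = A := Subtype.ext (inf_eq_left.2 h)
        rw [h2] at h1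
        rw [h1]
        exact inf_le_right
    let φ : B → Submodule ℂ K := fun b => f ⟨W b, ⟨b, rfl⟩⟩
    have hφG : ∀ b, φ b ∈ G := fun b => (f _).2
    have hφle : ∀ a b, φ a ≤ φ b ↔ a ≤ b := fun a b => (hfle _ _).trans (hWle a b)
    have hφsurj : ∀ M ∈ G, ∃ b, φ b = M := by
      intro M hM
      obtain ⟨⟨_, b, rfl⟩, hN⟩ := f.surjective ⟨M, hM⟩
      exact ⟨b, congrArg Subtype.val hN⟩
    refine no_rep d hd1 hd2 hat φ (fun b => hG.isClosed _ (hφG b))
      (fun a b hab => (hφle a b).2 hab) ?_ ?_ ?_ ?_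
    · obtain ⟨b, hb⟩ := hφsurj ⊥ hG.bot_mem
      rw [eq_bot_iff, ← hb, hφle]
      exact bot_le
    · intro h
      have h1 : φ ⊤ ≤ φ ⊥ := by
        have : φ ⊤ ≤ (⊤ : Submodule ℂ K) := le_top
        rw [h] at this
        exact this.trans bot_le
      have h2 := (hφle _ _).1 h1
      exact top_ne_bot (le_bot_iff.1 h2)
    · intro e c _ hc
      obtain ⟨b, hb⟩ := hφsurj _ (reflexive_iInf hGr hG.isClosed (fun k => φ (e k))
        fun k => hφG _)
      apply le_antisymm
      · rw [← hb, hφle]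
        apply hc.2
        rintro _ ⟨k, rfl⟩
        rw [← hφle, hb]
        exact iInf_le _ k
      · apply le_iInf
        intro k
        exact (hφle _ _).2 (hc.1 ⟨k, rfl⟩)
    · intro e _ he
      obtain ⟨b, hb⟩ := hφsurj _ (reflexive_iSup hGr (fun k => φ (e k)) fun k => hφG _)
      have h1 : b = ⊤ := by
        rw [eq_top_iff]
        apply he.2
        rintro _ ⟨k, rfl⟩
        rw [← hφle, hb]
        exact (le_iSup (fun k => φ (e k)) k).trans (Submodule.le_topologicalClosure _)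
      obtain ⟨t, ht⟩ := hφsurj ⊤ hG.top_mem
      rw [← hb, h1, eq_top_iff, ← ht, hφle]
      exact le_top

/-- There is a Boolean algebra of subspaces of `ℓ²(ℕ)`, complete in the Boolean sense, which is not
lattice isomorphic to any reflexive Boolean algebra of subspaces of any Hilbert space. -/
theorem result :
    ∃ F : Set (Submodule ℂ (lp (fun _ : ℕ => ℂ) 2)),
      IsBooleanAlgebraOfSubspaces F ∧ IsCompleteFamily F ∧
      ∀ (K : Type v) [NormedAddCommGroup K] [InnerProductSpace ℂ K] [CompleteSpace K]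
        (G : Set (Submodule ℂ K)),
        IsBooleanAlgebraOfSubspaces G → IsReflexiveFamily G → ¬ LatticeIsomorphic F G := by
  obtain ⟨d, hd1, hd2⟩ := exists_dense
  exact main_gen exists_lub d hd1 hd2 atomless

end Pool.Agent.Results.MP_44afb3_an.CohenAlgebra
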